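import Pool.Agent.H77.PUC.Util

/-! # Module PAW: near a point `a0`, there is a constant `c` such that `f∘Φ - c` is bounded away
from `0` -/

universe u

namespace PUC

open Polynomial Filter Topology

theorem sPaw (hLmz : SLmz.{u}) (hFlp : SFlp.{u}) : SPaw.{u} := by
  intro K Ω E _ _ _ _ _ _ _ _ _ _ _ _ _ F' _ _ Φ f hf0 hAn hFin a0
  classical
  obtain ⟨A, hA⟩ := (hFlp K Ω E F' Φ f hFin).2 a0
  obtain ⟨c, hc⟩ := Infinite.exists_notMem_finset (insert (0:K) A)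
  rw [Finset.mem_insert, not_or] at hc
  obtain ⟨hc0, hcA⟩ := hc
  by_contra hcon
  push Not at hcon
  have hcon' : ∀ n : ℕ, ∃ P : Place K Ω, zz K Ω ∈ P.ring ∧
      ‖P.val (zz K Ω) - a0‖ ≤ 1 / ((n:ℝ) + 1) ∧ f ∈ (Φ P).ring ∧
      ‖(Φ P).val f - c‖ < 1 / ((n:ℝ) + 1) := fun n =>
    hcon c (1 / ((n:ℝ) + 1)) (1 / ((n:ℝ) + 1)) hc0 (by positivity) (by positivity)
  choose P hP1 hP2 hP3 hP4 using hcon'
  let 𝒰 : Ultrafilter (Place K Ω) := Ultrafilter.of (Filter.map P atTop)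
  have hle : (𝒰 : Filter (Place K Ω)) ≤ Filter.map P atTop := Ultrafilter.of_le _
  have hev : ∀ p : Place K Ω → Prop, (∀ᶠ n in atTop, p (P n)) →
      ∀ᶠ Q in (𝒰 : Filter (Place K Ω)), p Q := fun p hp => hle (Filter.eventually_map.2 hp)
  have hsm : ∀ ε : ℝ, 0 < ε → ∀ᶠ n : ℕ in atTop, 1 / ((n:ℝ) + 1) < ε := fun ε hε =>
    (tendsto_one_div_add_atTop_nhds_zero_nat).eventually (gt_mem_nhds hε)
  obtain ⟨Q, hQ1, hQ2, hQ3⟩ := hLmz K Ω 𝒰 a0 (by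
    intro ε hε
    apply hev
    filter_upwards [hsm ε hε] with n hn
    exact ⟨hP1 n, (hP2 n).trans hn.le⟩)
  have hval : ∀ ε : ℝ, 0 < ε → ∀ᶠ Q in (𝒰 : Filter (Place K Ω)),
      f ∈ (Φ Q).ring ∧ ‖(Φ Q).val f - c‖ ≤ ε := by
    intro ε hε
    apply hev
    filter_upwards [hsm ε hε] with n hn
    exact ⟨hP3 n, (hP4 n).le.trans hn.le⟩
  have hne : (Φ Q).val f ≠ c := fun h => hcA (h ▸ hA Q hQ1 hQ2)
  have hδ : 0 < ‖(Φ Q).val f - c‖ := norm_pos_iff.2 (sub_ne_zero.2 hne)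
  have hc1 : 0 < ‖c‖ := norm_pos_iff.2 hc0
  set δ : ℝ := ‖(Φ Q).val f - c‖ with hδd
  obtain ⟨ε, hε, hε1, hε2, hε3⟩ : ∃ ε : ℝ, 0 < ε ∧ ε < δ ∧ ε < ‖c‖⁻¹ ∧ ‖c‖ ^ 2 * ε < δ := by
    refine ⟨min (δ / 2) (min (‖c‖⁻¹ / 2) (δ / 2 / ‖c‖ ^ 2)), by positivity, ?_, ?_, ?_⟩
    · exact (min_le_left _ _).trans_lt (by linarith)
    · refine ((min_le_right _ _).trans (min_le_left _ _)).trans_lt ?_
      have : 0 < ‖c‖⁻¹ := by positivity
      linarith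
    · have h1 : min (δ / 2) (min (‖c‖⁻¹ / 2) (δ / 2 / ‖c‖ ^ 2)) ≤ δ / 2 / ‖c‖ ^ 2 :=
        (min_le_right _ _).trans (min_le_right _ _)
      have h2 : ‖c‖ ^ 2 * min (δ / 2) (min (‖c‖⁻¹ / 2) (δ / 2 / ‖c‖ ^ 2)) ≤ δ / 2 := by
        calc ‖c‖ ^ 2 * min (δ / 2) (min (‖c‖⁻¹ / 2) (δ / 2 / ‖c‖ ^ 2)) ≤
            ‖c‖ ^ 2 * (δ / 2 / ‖c‖ ^ 2) := by gcongr
          _ = δ / 2 := by field_simp
      linarith
  obtain ⟨n, T, g, hcov, hpc⟩ := hAn ε hε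
  obtain ⟨i, hi⟩ := exists_piece 𝒰 (T := T) (Filter.Eventually.of_forall hcov)
  have hQT : Q ∈ Dom K (T i) := mem_dom_of_lim 𝒰 Q hQ3 hi
  have tri : ∀ x y z : K, ‖x - z‖ ≤ max ‖x - y‖ ‖y - z‖ := by
    intro x y z
    have e : x - z = (x - y) + (y - z) := by ring
    rw [e]
    exact IsUltrametricDist.norm_add_le_max _ _
  rcases hpc i with h1 | h1
  · obtain ⟨a1, a2, a3⟩ := h1 Q hQT
    obtain ⟨R, ⟨b1, b2⟩, ⟨c1, c2⟩, hR⟩ := ((hQ3 (g i) a2 ε hε).and ((hval ε hε).and hi)).exists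
    obtain ⟨d1, d2, d3⟩ := h1 R hR
    have h2 : ‖(Φ Q).val f - R.val (g i)‖ ≤ ε := by
      refine (tri _ (Q.val (g i)) _).trans (max_le a3 ?_)
      rw [norm_sub_rev]
      exact b2
    have h3 : ‖R.val (g i) - c‖ ≤ ε := by
      refine (tri _ ((Φ R).val f) _).trans (max_le ?_ c2)
      rw [norm_sub_rev]
      exact d3
    have h4 : δ ≤ ε := (tri _ (R.val (g i)) _).trans (max_le h2 h3)
    linarith
  · obtain ⟨a1, a2, a3⟩ := h1 Q hQT
    have hη : 0 < min (ε * ‖c‖ ^ 2) (‖c‖ / 2) := by positivity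
    obtain ⟨R, ⟨b1, b2⟩, ⟨c1, c2⟩, hR⟩ := ((hQ3 (g i) a2 ε hε).and ((hval _ hη).and hi)).exists
    obtain ⟨d1, d2, d3⟩ := h1 R hR
    have hx1 : ‖(Φ R).val f - c‖ ≤ ε * ‖c‖ ^ 2 := c2.trans (min_le_left _ _)
    have hx2 : ‖(Φ R).val f - c‖ < ‖c‖ := (c2.trans (min_le_right _ _)).trans_lt (by linarith)
    have hxn : ‖(Φ R).val f‖ = ‖c‖ := by
      refine le_antisymm ?_ ?_
      · have e : (Φ R).val f = ((Φ R).val f - c) + c := by ring
        rw [e]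
        exact (IsUltrametricDist.norm_add_le_max _ _).trans (max_le hx2.le le_rfl)
      · by_contra hlt
        push Not at hlt
        have e : c = (Φ R).val f - ((Φ R).val f - c) := by ring
        have h5 : ‖c‖ < ‖c‖ := by
          conv_lhs => rw [e]
          exact (norm_sub_le_max' _ _).trans_lt (max_lt hlt hx2)
        exact lt_irrefl _ h5
    have hx0 : (Φ R).val f ≠ 0 := by
      intro h
      rw [h, norm_zero] at hxn
      exact hc1.ne hxn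
    have hinv : ‖(Φ R).val f⁻¹ - c⁻¹‖ ≤ ε := by
      rw [(Φ R).val_inv c1 hx0]
      have hal : ∀ y : K, y ≠ 0 → y⁻¹ - c⁻¹ = -(y - c) / (y * c) := by
        intro y hy
        field_simp
        ring
      have e : ((Φ R).val f)⁻¹ - c⁻¹ = -((Φ R).val f - c) / ((Φ R).val f * c) := hal _ hx0
      rw [e, norm_div, norm_neg, norm_mul, hxn, div_le_iff₀ (by positivity), ← pow_two]
      exact hx1
    have h2 : ‖(Φ Q).val f⁻¹ - R.val (g i)‖ ≤ ε := by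
      refine (tri _ (Q.val (g i)) _).trans (max_le a3 ?_)
      rw [norm_sub_rev]
      exact b2
    have h3 : ‖R.val (g i) - c⁻¹‖ ≤ ε := by
      refine (tri _ ((Φ R).val f⁻¹) _).trans (max_le ?_ hinv)
      rw [norm_sub_rev]
      exact d3
    have h4 : ‖(Φ Q).val f⁻¹ - c⁻¹‖ ≤ ε := (tri _ (R.val (g i)) _).trans (max_le h2 h3)
    have hy0 : (Φ Q).val f⁻¹ ≠ 0 := by
      intro h
      rw [h, zero_sub, norm_neg, norm_inv] at h4
      linarith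
    have hyn : ‖(Φ Q).val f⁻¹‖ = ‖c‖⁻¹ := by
      rw [← norm_inv]
      have h4' : ‖(Φ Q).val f⁻¹ - c⁻¹‖ < ‖c⁻¹‖ := by
        rw [norm_inv]
        exact h4.trans_lt hε2
      refine le_antisymm ?_ ?_
      · have e : (Φ Q).val f⁻¹ = ((Φ Q).val f⁻¹ - c⁻¹) + c⁻¹ := by ring
        rw [e]
        exact (IsUltrametricDist.norm_add_le_max _ _).trans (max_le h4'.le le_rfl)
      · by_contra hlt
        push Not at hlt
        have e : c⁻¹ = (Φ Q).val f⁻¹ - ((Φ Q).val f⁻¹ - c⁻¹) := by ring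
        have h5 : ‖c⁻¹‖ < ‖c⁻¹‖ := by
          conv_lhs => rw [e]
          exact (norm_sub_le_max' _ _).trans_lt (max_lt hlt h4')
        exact lt_irrefl _ h5
    have hval2 : (Φ Q).val f = ((Φ Q).val f⁻¹)⁻¹ := by
      have h6 := (Φ Q).val_inv a1 hy0
      rw [inv_inv] at h6
      exact h6
    have h5 : δ = ‖c‖ ^ 2 * ‖(Φ Q).val f⁻¹ - c⁻¹‖ := by
      have hal : ∀ y : K, y ≠ 0 → y⁻¹ - c = -(c * c * (y - c⁻¹)) / (c * y) := by
        intro y hy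
        field_simp
        ring
      have e : (Φ Q).val f - c = -(c * c * ((Φ Q).val f⁻¹ - c⁻¹)) / (c * (Φ Q).val f⁻¹) := by
        conv_lhs => rw [hval2]
        exact hal _ hy0
      rw [hδd, e, norm_div, norm_neg, norm_mul, norm_mul, norm_mul, hyn]
      field_simp
    have h6 : δ ≤ ‖c‖ ^ 2 * ε := by
      rw [h5]
      gcongr
    linarith

end PUC
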