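import Pool.Agent.H77.PUC.FCx

/-! # Module QUO: quotients of approximable functions with a denominator of norm one -/

universe u

namespace PUC

open Polynomial

section

variable {K Ω : Type*} [NontriviallyNormedField K] [IsUltrametricDist K] [Field Ω] [Algebra K Ω]

theorem QUO_dich (P : Place K Ω) (t : Ω) :
    (t ∈ P.ring ∧ ‖P.val t‖ ≤ 1) ∨ (t⁻¹ ∈ P.ring ∧ ‖P.val t⁻¹‖ ≤ 1) := by
  by_cases hf : t ∈ P.ring
  · by_cases h1 : ‖P.val t‖ ≤ 1
    · exact Or.inl ⟨hf, h1⟩
    · right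
      have h0 : P.val t ≠ 0 := by
        intro h0
        rw [h0, norm_zero] at h1
        exact h1 zero_le_one
      refine ⟨P.inv_mem_of_val hf h0, ?_⟩
      rw [P.val_inv hf h0, norm_inv]
      exact inv_le_one_of_one_le₀ (le_of_lt (not_le.1 h1))
  · right
    exact ⟨P.inv_mem_of_not_mem hf, by rw [P.val_inv_of_not_mem hf]; simp⟩

/-- the estimate for one quotient -/
theorem QUO_est {P : Place K Ω} {η : ℝ} (hη : 0 < η) (hη1 : η < 1) {N D d : K} {ν δ : Ω}
    (hN : N = D * d) (hD : ‖D‖ = 1) (hd : ‖d‖ ≤ 1) (hν : ν ∈ P.ring) (hδ : δ ∈ P.ring)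
    (hNν : ‖N - P.val ν‖ ≤ η) (hDδ : ‖D - P.val δ‖ ≤ η) :
    ν / δ ∈ P.ring ∧ ‖d - P.val (ν / δ)‖ ≤ η := by
  have hδ1 : ‖P.val δ‖ = 1 := by
    have h1 : ‖P.val δ‖ ≤ 1 := by
      have e : P.val δ = D - (D - P.val δ) := by ring
      rw [e]
      exact (norm_sub_le_max' _ _).trans (max_le hD.le (hDδ.trans hη1.le))
    refine le_antisymm h1 ?_
    by_contra h2
    push Not at h2
    have e : D = (D - P.val δ) + P.val δ := by ring
    have h3 : ‖D‖ < 1 := by
      rw [e]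
      exact (IsUltrametricDist.norm_add_le_max _ _).trans_lt (max_lt (hDδ.trans_lt hη1) h2)
    linarith
  have hδ0 : P.val δ ≠ 0 := by
    intro h
    rw [h, norm_zero] at hδ1
    exact zero_ne_one hδ1
  have hinv := P.inv_mem_of_val hδ hδ0
  refine ⟨by rw [div_eq_mul_inv]; exact P.ring.mul_mem _ _ hν hinv, ?_⟩
  rw [div_eq_mul_inv, P.val_mul hν hinv, P.val_inv hδ hδ0]
  have hD0 : D ≠ 0 := by
    intro h
    rw [h, norm_zero] at hD
    exact zero_ne_one hD
  have e : d - P.val ν * (P.val δ)⁻¹ =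
      (D * d * (P.val δ - D) + D * (D * d - P.val ν)) / (D * P.val δ) := by
    field_simp
    ring
  rw [e, norm_div, norm_mul, hD, hδ1, one_mul, div_one]
  refine (IsUltrametricDist.norm_add_le_max _ _).trans (max_le ?_ ?_)
  · rw [norm_mul, norm_mul, hD, one_mul, norm_sub_rev]
    calc ‖d‖ * ‖D - P.val δ‖ ≤ 1 * η := by gcongr
      _ = η := one_mul _
  · rw [norm_mul, hD, one_mul, ← hN]
    exact hNν

end

theorem sQuo : SQuo.{u} := by
  intro K Ω _ _ _ _ A η hη hη1 N D N' D' d h hN hD hN' hD'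
  classical
  obtain ⟨n, T, g, h1, h2⟩ := FCx_multi (A := A) (η := η)
    (fun i : Fin 4 => ![N, D, N', D'] i) (by
      intro i
      fin_cases i
      · exact hN
      · exact hD
      · exact hN'
      · exact hD')
  have hN2 : ∀ k, ∀ P ∈ A, P ∈ Dom K (T k) → g k 0 ∈ P.ring ∧ ‖N P - P.val (g k 0)‖ ≤ η :=
    fun k P hP hk => h2 k P hP hk 0
  have hD2 : ∀ k, ∀ P ∈ A, P ∈ Dom K (T k) → g k 1 ∈ P.ring ∧ ‖D P - P.val (g k 1)‖ ≤ η :=
    fun k P hP hk => h2 k P hP hk 1
  have hN2' : ∀ k, ∀ P ∈ A, P ∈ Dom K (T k) → g k 2 ∈ P.ring ∧ ‖N' P - P.val (g k 2)‖ ≤ η :=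
    fun k P hP hk => h2 k P hP hk 2
  have hD2' : ∀ k, ∀ P ∈ A, P ∈ Dom K (T k) → g k 3 ∈ P.ring ∧ ‖D' P - P.val (g k 3)‖ ≤ η :=
    fun k P hP hk => h2 k P hP hk 3
  refine FCx_of_finite (κ := Fin n × Bool)
    (fun k => T k.1 ∪ {if k.2 then g k.1 3 / g k.1 1 else g k.1 1 / g k.1 3})
    (fun k => if k.2 then (if g k.1 1 = 0 then g k.1 2 / g k.1 3 else g k.1 0 / g k.1 1)
      else (if g k.1 3 = 0 then g k.1 0 / g k.1 1 else g k.1 2 / g k.1 3)) ?_ ?_
  · intro P hP
    obtain ⟨k, hk⟩ := h1 P hP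
    rcases QUO_dich P (g k 3 / g k 1) with h3 | h3
    · refine ⟨(k, true), ?_⟩
      intro t ht
      rw [Finset.mem_union] at ht
      rcases ht with ht | ht
      · exact hk t ht
      · simp only [if_true, Finset.mem_singleton] at ht
        rw [ht]
        exact h3
    · refine ⟨(k, false), ?_⟩
      intro t ht
      rw [Finset.mem_union] at ht
      rcases ht with ht | ht
      · exact hk t ht
      · simp only [Bool.false_eq_true, if_false, Finset.mem_singleton] at ht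
        rw [ht, ← inv_div]
        exact h3
  · rintro ⟨k, c⟩ P hP hk
    have hkT : P ∈ Dom K (T k) := fun t ht => hk t (Finset.mem_union_left _ ht)
    obtain ⟨e1, e2, e3, e4, e5, e6⟩ := h P hP
    obtain ⟨a1, a2⟩ := hN2 k P hP hkT
    obtain ⟨b1, b2⟩ := hD2 k P hP hkT
    obtain ⟨a1', a2'⟩ := hN2' k P hP hkT
    obtain ⟨b1', b2'⟩ := hD2' k P hP hkT
    -- comparison of norms
    have key : ∀ (x y : K) (ξ υ : Ω), ξ ∈ P.ring → υ ∈ P.ring → ‖x - P.val ξ‖ ≤ η →
        ‖y - P.val υ‖ ≤ η → ‖x‖ ≤ 1 → (‖x‖ = 1 ∨ ‖y‖ = 1) →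
        (ξ = 0 ∨ (υ / ξ ∈ P.ring ∧ ‖P.val (υ / ξ)‖ ≤ 1)) →
        (ξ = 0 → ‖y‖ = 1) ∧ (ξ ≠ 0 → ‖x‖ = 1) := by
      intro x y ξ υ hξ hυ hx hy hx1 hor hq
      constructor
      · intro h0
        rcases hor with h3 | h3
        · exfalso
          rw [h0, P.val_zero, sub_zero, h3] at hx
          linarith
        · exact h3
      · intro h0
        obtain ⟨q1, q2⟩ := hq.resolve_left h0
        rcases hor with h3 | h3
        · exact h3
        · have e : P.val υ = P.val (υ / ξ) * P.val ξ := by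
            rw [← P.val_mul q1 hξ, div_mul_cancel₀ _ h0]
          have h4 : ‖P.val υ‖ ≤ ‖P.val ξ‖ := by
            rw [e, norm_mul]
            exact mul_le_of_le_one_left (norm_nonneg _) q2
          by_contra h5
          have h6 : ‖x‖ < 1 := lt_of_le_of_ne hx1 h5
          have h7 : ‖P.val ξ‖ < 1 := by
            have e : P.val ξ = x - (x - P.val ξ) := by ring
            rw [e]
            exact (norm_sub_le_max' _ _).trans_lt (max_lt h6 (hx.trans_lt hη1))
          have h8 : ‖y‖ < 1 := by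
            have e : y = (y - P.val υ) + P.val υ := by ring
            rw [e]
            exact (IsUltrametricDist.norm_add_le_max _ _).trans_lt
              (max_lt (hy.trans_lt hη1) (h4.trans_lt h7))
          linarith
    cases c with
    | true =>
      have hq : g k 3 / g k 1 ∈ P.ring ∧ ‖P.val (g k 3 / g k 1)‖ ≤ 1 :=
        hk _ (Finset.mem_union_right _ (by simp))
      obtain ⟨c1, c2⟩ := key (D P) (D' P) (g k 1) (g k 3) b1 b1' b2 b2' e3 e6 (Or.inr hq)
      by_cases h0 : g k 1 = 0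
      · simp only [if_true, if_pos h0]
        exact QUO_est hη hη1 e2 (c1 h0) e5 a1' b1' a2' b2'
      · simp only [if_true, if_neg h0]
        exact QUO_est hη hη1 e1 (c2 h0) e5 a1 b1 a2 b2
    | false =>
      have hq : g k 1 / g k 3 ∈ P.ring ∧ ‖P.val (g k 1 / g k 3)‖ ≤ 1 :=
        hk _ (Finset.mem_union_right _ (by simp))
      obtain ⟨c1, c2⟩ := key (D' P) (D P) (g k 3) (g k 1) b1' b1 b2' b2 e4 e6.symm (Or.inr hq)
      by_cases h0 : g k 3 = 0
      · simp only [Bool.false_eq_true, if_false, if_pos h0]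
        exact QUO_est hη hη1 e1 (c1 h0) e5 a1 b1 a2 b2
      · simp only [Bool.false_eq_true, if_false, if_neg h0]
        exact QUO_est hη hη1 e2 (c2 h0) e5 a1' b1' a2' b2'

end PUC
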