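import Pool.Agent.H77.PUC.StmtsE

/-! # Module RFA: the algebra structure over `K(z)` -/

universe u

namespace PUC

open Polynomial

theorem sRfa : SRfa.{u} := by
  intro K Ω _ _ _ z hz
  have hinj : Function.Injective (aeval z : K[X] →ₐ[K] Ω) := transcendental_iff_injective.1 hz
  let φ : RatFunc K →ₐ[K] Ω := RatFunc.liftAlgHom (aeval z)
    (nonZeroDivisors_le_comap_nonZeroDivisors_of_injective _ hinj)
  let alg : Algebra (RatFunc K) Ω := φ.toRingHom.toAlgebra
  have hmap : ∀ q, algebraMap (RatFunc K) Ω q = φ q := fun _ => rfl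
  have tower : IsScalarTower K (RatFunc K) Ω :=
    IsScalarTower.of_algebraMap_eq fun c => (φ.commutes c).symm
  have hpol : ∀ p q : K[X], φ (algebraMap K[X] (RatFunc K) p / algebraMap K[X] (RatFunc K) q) =
      aeval z p / aeval z q := by
    intro p q
    exact RatFunc.liftAlgHom_apply_div (aeval z)
      (nonZeroDivisors_le_comap_nonZeroDivisors_of_injective _ hinj) p q
  have hX : φ RatFunc.X = z := by
    have h := hpol X 1
    rw [map_one, div_one, map_one, div_one, aeval_X] at h
    exact h
  have hmem : ∀ M : IntermediateField K Ω, z ∈ M → ∀ q : RatFunc K, φ q ∈ M := by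
    intro M hM q
    rw [← RatFunc.num_div_denom q, hpol]
    have h : ∀ p : K[X], aeval z p ∈ M := by
      intro p
      have h1 : aeval z p = ((aeval (⟨z, hM⟩ : M) p : M) : Ω) := by
        have := Polynomial.aeval_algHom_apply M.val (⟨z, hM⟩ : M) p
        simpa using this
      rw [h1]
      exact SetLike.coe_mem _
    exact M.div_mem (h _) (h _)
  have hzS : z ∈ IntermediateField.adjoin K {z} := IntermediateField.mem_adjoin_simple_self K z
  let f : RatFunc K →+* IntermediateField.adjoin K {z} :=
    (φ : RatFunc K →+* Ω).codRestrict (IntermediateField.adjoin K {z}).toSubfield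
      (fun q => hmem _ hzS q)
  have hfv : ∀ q, ((f q : IntermediateField.adjoin K {z}) : Ω) = φ q := fun _ => rfl
  have hf : Function.Surjective f := by
    rintro ⟨y, hy⟩
    have hle : IntermediateField.adjoin K {z} ≤ φ.fieldRange := by
      rw [IntermediateField.adjoin_le_iff]
      rintro _ rfl
      exact ⟨RatFunc.X, hX⟩
    obtain ⟨q, hq⟩ := hle hy
    exact ⟨q, Subtype.ext hq⟩
  refine ⟨alg, tower, hX, ?_, ?_, ?_⟩
  · intro h
    exact Algebra.IsAlgebraic.of_ringHom_of_comp_eq f (RingHom.id Ω) hf Function.injective_id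
      (by ext q <;> rfl)
  · intro h
    let _ : Algebra (RatFunc K) (IntermediateField.adjoin K {z}) := f.toAlgebra
    have : IsScalarTower (RatFunc K) (IntermediateField.adjoin K {z}) Ω :=
      IsScalarTower.of_algebraMap_eq fun q => rfl
    have : Module.Finite (RatFunc K) (IntermediateField.adjoin K {z}) :=
      Module.Finite.of_surjective (Algebra.linearMap (RatFunc K) (IntermediateField.adjoin K {z})) hf
    exact Module.Finite.trans (IntermediateField.adjoin K {z}) Ω
  · intro M hM q
    exact hmem M hM q

end PUC
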